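import Mathlib
import Pool.Agent.TH407.MV.Defs
import Pool.Agent.TH407.AR.Strong
set_option autoImplicit false

/-!
# MV-15 (job 2710, helper407, MP_6cbfb8_an): from the restricted to the strong estimate
-/

namespace Pool.Agent.TH656.MVx

open MeasureTheory Set
open Complex hiding eta
open scoped ENNReal NNReal Real
open Pool.Agent.TH407.AR hiding sq
open Pool.Agent.TH407.ARx (meas_sq meas_ang sq_pol ang_pol lv meas_lv lv_lower lv_upper ak Mk
  adm_ak Mk_le lev)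
open Pool.Agent.TH407.MV

theorem meas_ps (ε : ℝ) : Measurable (ps ε) := by
  unfold ps
  fun_prop

theorem meas_gn (ε : ℝ) : Measurable (gn ε) := by
  unfold gn
  fun_prop

theorem meas_eta : Measurable eta := by
  have h : Continuous eta := by
    unfold eta
    exact (Real.smoothTransition.continuous.comp (by fun_prop)).mul
      (Real.smoothTransition.continuous.comp (by fun_prop))
  exact h.measurable

theorem eta_nonneg (s : ℝ) : 0 ≤ eta s :=
  mul_nonneg (Real.smoothTransition.nonneg _) (Real.smoothTransition.nonneg _)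

theorem eta_le (s : ℝ) : eta s ≤ 1 :=
  mul_le_one₀ (Real.smoothTransition.le_one _) (Real.smoothTransition.nonneg _)
    (Real.smoothTransition.le_one _)

theorem eta_zero {s : ℝ} (hs : 2 ≤ s) : eta s = 0 := by
  unfold eta
  rw [Real.smoothTransition.zero_of_nonpos (x := 2 - s) (by linarith), mul_zero]

theorem meas_pro (ε : ℝ) : Measurable (pro ε) := by
  unfold pro
  refine Measurable.ite ?_ ((meas_eta.comp (meas_gn ε)).comp meas_sq) measurable_const
  exact measurableSet_lt (measurable_const.mul meas_sq) measurable_const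

theorem pro_nonneg (ε : ℝ) (x : ℝ × ℝ) : 0 ≤ pro ε x := by
  unfold pro
  split_ifs
  · exact eta_nonneg _
  · exact le_rfl

theorem pro_le (ε : ℝ) (x : ℝ × ℝ) : pro ε x ≤ 1 := by
  unfold pro
  split_ifs
  · exact eta_le _
  · exact zero_le_one

theorem pro_zero (ε : ℝ) {x : ℝ × ℝ} (hx : 2 ≤ Pool.Agent.TH407.AR.sq x) : pro ε x = 0 := by
  unfold pro
  split_ifs with h
  · apply eta_zero
    unfold gn
    rw [le_div_iff₀ (by linarith)]
    have : 0 ≤ ε ^ 2 * Pool.Agent.TH407.AR.sq x := by positivity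
    nlinarith
  · rfl

theorem meas_fap (ε : ℝ) {a : ℝ → ℝ → ℂ} (ha : Measurable (Function.uncurry a)) :
    Measurable (fap ε a) := by
  have h1 : Measurable (fun x : ℝ × ℝ => a (ps ε (Pool.Agent.TH407.AR.sq x)) (ang x)) :=
    ha.comp (((meas_ps ε).comp meas_sq).prodMk meas_ang)
  unfold fap
  exact (Complex.measurable_ofReal.comp (meas_pro ε)).mul h1

theorem meas_EP (ε : ℝ) {f : ℝ × ℝ → ℂ} (hf : Measurable f) :
    Measurable (fun ξ : (ℝ × ℝ) × ℝ => EP ε f ξ.1 ξ.2) := by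
  have h : StronglyMeasurable (Function.uncurry (fun (ξ : (ℝ × ℝ) × ℝ) (x : ℝ × ℝ) =>
      cexp (-(I * ((x.1 * ξ.1.1 + x.2 * ξ.1.2 + ps ε (Pool.Agent.TH407.AR.sq x) * ξ.2 : ℝ) : ℂ)))
        * f x)) := by
    refine Measurable.stronglyMeasurable ?_
    refine Measurable.mul ?_ (hf.comp measurable_snd)
    have := meas_ps ε
    have := meas_sq
    fun_prop
  exact h.integral_prod_right.measurable

/-- the `L¹` norm of `fap ε a` -/
theorem lint_fap (ε : ℝ) {a : ℝ → ℝ → ℂ} {M : ℝ → ℝ≥0} (ha : Adm a M) :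
    ∫⁻ x, ‖fap ε a x‖ₑ ≤ 4 * ∫⁻ θ in Ioo (-π) π, (M θ : ℝ≥0∞) := by
  rw [← lintegral_comp_polarCoord_symm]
  have h1 : ∀ p ∈ polarCoord.target, ENNReal.ofReal p.1 • ‖fap ε a (polarCoord.symm p)‖ₑ ≤
      (Iic (2 : ℝ)).indicator (fun _ => (2 : ℝ≥0∞)) p.1 * (M p.2 : ℝ≥0∞) := by
    intro p hp
    have hp' := hp
    rw [polarCoord_target] at hp'
    have hr : 0 < p.1 := hp'.1
    by_cases h : p.1 ≤ 2
    · unfold fap
      rw [ang_pol hp]
      rw [indicator_of_mem (show p.1 ∈ Iic (2 : ℝ) from h), enorm_mul, smul_eq_mul]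
      have h2 : ENNReal.ofReal p.1 ≤ 2 := by
        have := ENNReal.ofReal_le_ofReal h
        simpa using this
      have h3 : ‖((pro ε (polarCoord.symm p) : ℝ) : ℂ)‖ₑ ≤ 1 := by
        rw [← ofReal_norm, Complex.norm_real, ← ENNReal.ofReal_one]
        apply ENNReal.ofReal_le_ofReal
        rw [Real.norm_of_nonneg (pro_nonneg _ _)]
        exact pro_le _ _
      calc _ ≤ 2 * (1 * (M p.2 : ℝ≥0∞)) := by
            gcongr
            exact ha.bd _ _
        _ = 2 * M p.2 := by rw [one_mul]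
    · have h2 : fap ε a (polarCoord.symm p) = 0 := by
        unfold fap
        rw [pro_zero]
        · simp
        · rw [sq_pol]
          push Not at h
          nlinarith
      rw [h2]
      simp
  calc ∫⁻ p in polarCoord.target, ENNReal.ofReal p.1 • ‖fap ε a (polarCoord.symm p)‖ₑ
      ≤ ∫⁻ p in polarCoord.target,
          (Iic (2 : ℝ)).indicator (fun _ => (2 : ℝ≥0∞)) p.1 * (M p.2 : ℝ≥0∞) := by
        refine setLIntegral_mono' ?_ h1
        rw [polarCoord_target]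
        exact measurableSet_Ioi.prod measurableSet_Ioo
    _ = (∫⁻ r in Ioi (0 : ℝ), (Iic (2 : ℝ)).indicator (fun _ => (2 : ℝ≥0∞)) r) *
          ∫⁻ θ in Ioo (-π) π, (M θ : ℝ≥0∞) := by
        rw [polarCoord_target, Measure.volume_eq_prod, ← Measure.prod_restrict,
          lintegral_prod_mul (f := (Iic (2 : ℝ)).indicator (fun _ => (2 : ℝ≥0∞)))
            (g := fun θ => (M θ : ℝ≥0∞))]
        · exact (measurable_const.indicator measurableSet_Iic).aemeasurable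
        · exact ha.mM.coe_nnreal_ennreal.aemeasurable
    _ = 4 * ∫⁻ θ in Ioo (-π) π, (M θ : ℝ≥0∞) := by
        have : ∫⁻ r in Ioi (0 : ℝ), (Iic (2 : ℝ)).indicator (fun _ => (2 : ℝ≥0∞)) r = 4 := by
          rw [lintegral_indicator measurableSet_Iic, Measure.restrict_restrict measurableSet_Iic,
            setLIntegral_const]
          have : Iic (2 : ℝ) ∩ Ioi 0 = Ioc 0 2 := by
            ext x; simp [and_comm]
          rw [this, Real.volume_Ioc]
          norm_num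
        rw [this]

/-- the bound on one level -/
theorem level {a : ℝ → ℝ → ℂ} {M : ℝ → ℝ≥0} (ha : Adm a M) (ε q p : ℝ) (hq : 2 ≤ q)
    (hp : 2 ≤ p) (C : ℝ≥0) (hC : ∀ (a : ℝ → ℝ → ℂ) (M : ℝ → ℝ≥0) (B : ℝ≥0), Adm a M → (∀ θ, M θ ≤ B) →
      ∫⁻ ξ : (ℝ × ℝ) × ℝ, ‖EP ε (fap ε a) ξ.1 ξ.2‖ₑ ^ p ≤
        C * (B : ℝ≥0∞) ^ (p - 2) * ∫⁻ θ in Ioo (-π) π, (M θ : ℝ≥0∞) ^ 2) (k : ℤ) :
    ENNReal.ofReal ((2 : ℝ) ^ (k * (q - p))) *
      ∫⁻ ξ : (ℝ × ℝ) × ℝ, ‖EP ε (fap ε (ak a M k)) ξ.1 ξ.2‖ₑ ^ p ≤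
      ((C * (2 : ℝ≥0) ^ (p - 2) : ℝ≥0) : ℝ≥0∞) *
        ∫⁻ θ in Ioo (-π) π, if lv M θ = k then (M θ : ℝ≥0∞) ^ q else 0 := by
  have h1 := hC _ _ ((2 : ℝ≥0) ^ ((k : ℝ) + 1)) (adm_ak ha k) (Mk_le M k)
  calc ENNReal.ofReal ((2 : ℝ) ^ (k * (q - p))) *
      ∫⁻ ξ : (ℝ × ℝ) × ℝ, ‖EP ε (fap ε (ak a M k)) ξ.1 ξ.2‖ₑ ^ p
      ≤ ENNReal.ofReal ((2 : ℝ) ^ (k * (q - p))) * (C * (((2 : ℝ≥0) ^ ((k : ℝ) + 1) : ℝ≥0) : ℝ≥0∞) ^ (p - 2) *
          ∫⁻ θ in Ioo (-π) π, (Mk M k θ : ℝ≥0∞) ^ 2) := by gcongr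
    _ = C * ∫⁻ θ in Ioo (-π) π, ENNReal.ofReal ((2 : ℝ) ^ (k * (q - p))) *
          (((2 : ℝ≥0) ^ ((k : ℝ) + 1) : ℝ≥0) : ℝ≥0∞) ^ (p - 2) * (Mk M k θ : ℝ≥0∞) ^ 2 := by
        rw [lintegral_const_mul']
        · ring
        · exact ENNReal.mul_ne_top ENNReal.ofReal_ne_top
            (ENNReal.rpow_ne_top_of_nonneg (by linarith) ENNReal.coe_ne_top)
    _ ≤ C * ∫⁻ θ in Ioo (-π) π, (((2 : ℝ≥0) ^ (p - 2) : ℝ≥0) : ℝ≥0∞) *
          (if lv M θ = k then (M θ : ℝ≥0∞) ^ q else 0) := by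
        refine mul_le_mul' le_rfl (lintegral_mono fun θ => ?_)
        by_cases h : lv M θ = k
        · rw [if_pos h]
          have h2 : Mk M k θ = M θ := by unfold Mk; rw [if_pos h]
          rw [h2]
          apply lev q p hq
          rcases eq_or_ne (M θ) 0 with h0 | h0
          · exact Or.inl h0
          · right
            rw [← h]
            exact lv_lower h0
        · have h2 : Mk M k θ = 0 := by unfold Mk; rw [if_neg h]
          rw [h2, if_neg h]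
          simp
    _ = _ := by
        rw [lintegral_const_mul' _ _ ENNReal.coe_ne_top, ENNReal.coe_mul, mul_assoc]

theorem strongP_of (h14 : RestrP) (hS : Pool.Agent.TH407.AR.SumLemma) : StrongP := by
  intro A0 q hq
  obtain ⟨C0, hC0'⟩ := h14 A0 ((q + 3) / 2) (by linarith)
  obtain ⟨C1, hC1'⟩ := h14 A0 (q + 1) (by linarith)
  obtain ⟨Cs, hCs⟩ := hS ((q + 3) / 2) q (q + 1) (by linarith) (by linarith) (by linarith)
  set D0 : ℝ≥0 := C0 * (2 : ℝ≥0) ^ ((q + 3) / 2 - 2) with hD0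
  set D1 : ℝ≥0 := C1 * (2 : ℝ≥0) ^ (q + 1 - 2) with hD1
  refine ⟨Cs * (D0 + D1) + 1, ?_⟩
  intro ε hε hεA a M ha
  have hC0 := hC0' ε hε hεA
  have hC1 := hC1' ε hε hεA
  by_cases hfin : ∫⁻ θ in Ioo (-π) π, (M θ : ℝ≥0∞) ^ q = ⊤
  · rw [hfin, ENNReal.mul_top]
    · exact le_top
    · rw [ENNReal.coe_ne_zero]; positivity
  -- integrability of `fa a`
  have hM1 : ∫⁻ θ in Ioo (-π) π, (M θ : ℝ≥0∞) ≠ ⊤ := by
    have h1 : ∫⁻ θ in Ioo (-π) π, (M θ : ℝ≥0∞) ≤ ∫⁻ θ in Ioo (-π) π, (1 + (M θ : ℝ≥0∞) ^ q) := by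
      refine lintegral_mono fun θ => ?_
      rcases le_total (M θ : ℝ≥0∞) 1 with h | h
      · exact h.trans le_self_add
      · calc (M θ : ℝ≥0∞) = (M θ : ℝ≥0∞) ^ (1 : ℝ) := (ENNReal.rpow_one _).symm
          _ ≤ (M θ : ℝ≥0∞) ^ q := ENNReal.rpow_le_rpow_of_exponent_le h (by linarith)
          _ ≤ _ := le_add_self
    refine ne_top_of_le_ne_top ?_ h1
    rw [lintegral_add_left measurable_const, setLIntegral_const, one_mul]
    refine ENNReal.add_ne_top.mpr ⟨?_, hfin⟩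
    rw [Real.volume_Ioo]
    exact ENNReal.ofReal_ne_top
  have hint : ∫⁻ x, ‖fap ε a x‖ₑ ≠ ⊤ := 
    ne_top_of_le_ne_top (ENNReal.mul_ne_top (by norm_num) hM1) (lint_fap ε ha)
  have hmeas : ∀ k, Measurable (fap ε (ak a M k)) := fun k => meas_fap ε (adm_ak ha k).ma
  -- decomposition
  have hfak : ∀ k x, fap ε (ak a M k) x = if lv M (ang x) = k then fap ε a x else 0 := by
    intro k x
    unfold fap ak
    split_ifs
    · rfl
    · rw [mul_zero]
  have hsum : ∀ x, ∑' k, ‖fap ε (ak a M k) x‖ₑ = ‖fap ε a x‖ₑ := by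
    intro x
    rw [tsum_eq_single (lv M (ang x))]
    · rw [hfak, if_pos rfl]
    · intro k hk
      rw [hfak, if_neg (Ne.symm hk), enorm_zero]
  have hEX : ∀ X t, ‖EP ε (fap ε a) X t‖ₑ ≤ ∑' k, ‖EP ε (fap ε (ak a M k)) X t‖ₑ := by
    intro X t
    have hnorm : ∀ x : ℝ × ℝ, ‖cexp (-(I * ((x.1 * X.1 + x.2 * X.2 + ps ε (Pool.Agent.TH407.AR.sq x) * t : ℝ) : ℂ)))‖ₑ = 1 := by
      intro x
      rw [← ofReal_norm, Complex.norm_exp]
      simp
    have h1 : EP ε (fap ε a) X t = ∑' k, EP ε (fap ε (ak a M k)) X t := by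
      unfold EP
      rw [← integral_tsum]
      · refine integral_congr_ae (ae_of_all _ fun x => ?_)
        simp only
        rw [tsum_eq_single (lv M (ang x))]
        · rw [hfak, if_pos rfl]
        · intro k hk
          rw [hfak, if_neg (Ne.symm hk), mul_zero]
      · intro k
        refine AEStronglyMeasurable.mul ?_ (hmeas k).aestronglyMeasurable
        refine Measurable.aestronglyMeasurable ?_
        have := meas_ps ε
        have := meas_sq
        fun_prop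
      · have h2 : ∀ k, ∫⁻ x : ℝ × ℝ, ‖cexp (-(I * ((x.1 * X.1 + x.2 * X.2 + ps ε (Pool.Agent.TH407.AR.sq x) * t : ℝ) : ℂ))) *
            fap ε (ak a M k) x‖ₑ = ∫⁻ x : ℝ × ℝ, ‖fap ε (ak a M k) x‖ₑ := by
          intro k
          refine lintegral_congr fun x => ?_
          rw [enorm_mul, hnorm, one_mul]
        simp only [h2]
        rw [← lintegral_tsum (fun k => (hmeas k).enorm.aemeasurable)]
        simp only [hsum]
        exact hint
    rw [h1]
    exact enorm_tsum_le_tsum_enorm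
  -- main computation
  have hmE : ∀ k, Measurable (fun ξ : (ℝ × ℝ) × ℝ => ‖EP ε (fap ε (ak a M k)) ξ.1 ξ.2‖ₑ) :=
    fun k => (meas_EP ε (hmeas k)).enorm
  have hlev0 := level ha ε q ((q + 3) / 2) (by linarith) (by linarith) C0 hC0
  have hlev1 := level ha ε q (q + 1) (by linarith) (by linarith) C1 hC1
  have hE : ∀ k : ℤ, MeasurableSet {θ | lv M θ = k} := fun k =>
    meas_lv ha.mM (measurableSet_singleton k)
  have hA : ∑' k : ℤ, ∫⁻ θ in Ioo (-π) π, (if lv M θ = k then (M θ : ℝ≥0∞) ^ q else 0) =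
      ∫⁻ θ in Ioo (-π) π, (M θ : ℝ≥0∞) ^ q := by
    rw [← lintegral_tsum]
    · refine lintegral_congr fun θ => ?_
      rw [tsum_eq_single (lv M θ)]
      · rw [if_pos rfl]
      · intro k hk
        rw [if_neg (Ne.symm hk)]
    · intro k
      exact (Measurable.ite (hE k) (ha.mM.coe_nnreal_ennreal.pow_const q)
        measurable_const).aemeasurable
  calc ∫⁻ ξ : (ℝ × ℝ) × ℝ, ‖EP ε (fap ε a) ξ.1 ξ.2‖ₑ ^ q
      ≤ ∫⁻ ξ : (ℝ × ℝ) × ℝ, Cs * (∑' k : ℤ, ENNReal.ofReal ((2 : ℝ) ^ (k * (q - (q + 3) / 2))) *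
            ‖EP ε (fap ε (ak a M k)) ξ.1 ξ.2‖ₑ ^ ((q + 3) / 2) +
          ∑' k : ℤ, ENNReal.ofReal ((2 : ℝ) ^ (k * (q - (q + 1)))) *
            ‖EP ε (fap ε (ak a M k)) ξ.1 ξ.2‖ₑ ^ (q + 1)) := by
        refine lintegral_mono fun ξ => ?_
        refine (ENNReal.rpow_le_rpow (hEX ξ.1 ξ.2) (by linarith)).trans ?_
        refine (hCs (fun k => ‖EP ε (fap ε (ak a M k)) ξ.1 ξ.2‖ₑ)).trans (le_of_eq ?_)
        congr 3
        funext k
        congr 3
        ring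
    _ = Cs * ((∑' k : ℤ, ENNReal.ofReal ((2 : ℝ) ^ (k * (q - (q + 3) / 2))) *
            ∫⁻ ξ : (ℝ × ℝ) × ℝ, ‖EP ε (fap ε (ak a M k)) ξ.1 ξ.2‖ₑ ^ ((q + 3) / 2)) +
          ∑' k : ℤ, ENNReal.ofReal ((2 : ℝ) ^ (k * (q - (q + 1)))) *
            ∫⁻ ξ : (ℝ × ℝ) × ℝ, ‖EP ε (fap ε (ak a M k)) ξ.1 ξ.2‖ₑ ^ (q + 1)) := by
        rw [lintegral_const_mul' _ _ ENNReal.coe_ne_top, lintegral_add_left, lintegral_tsum,
          lintegral_tsum]
        · congr 2
          · congr 1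
            funext k
            rw [lintegral_const_mul' _ _ ENNReal.ofReal_ne_top]
          · congr 1
            funext k
            rw [lintegral_const_mul' _ _ ENNReal.ofReal_ne_top]
        · intro k
          exact (((hmE k).pow_const _).const_mul _).aemeasurable
        · intro k
          exact (((hmE k).pow_const _).const_mul _).aemeasurable
        · exact Measurable.tsum fun k => ((hmE k).pow_const _).const_mul _
    _ ≤ Cs * ((∑' k : ℤ, (D0 : ℝ≥0∞) *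
            ∫⁻ θ in Ioo (-π) π, (if lv M θ = k then (M θ : ℝ≥0∞) ^ q else 0)) +
          ∑' k : ℤ, (D1 : ℝ≥0∞) *
            ∫⁻ θ in Ioo (-π) π, (if lv M θ = k then (M θ : ℝ≥0∞) ^ q else 0)) := by
        exact mul_le_mul' le_rfl (add_le_add (ENNReal.tsum_le_tsum hlev0)
          (ENNReal.tsum_le_tsum hlev1))
    _ = ((Cs * (D0 + D1) : ℝ≥0) : ℝ≥0∞) * ∫⁻ θ in Ioo (-π) π, (M θ : ℝ≥0∞) ^ q := by
        rw [ENNReal.tsum_mul_left, ENNReal.tsum_mul_left, hA]
        push_cast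
        ring
    _ ≤ _ := by
        gcongr
        exact le_self_add

end Pool.Agent.TH656.MVx
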